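import Pool.Agent.X201.SH.Fin

/-!
# Extensions by Coxeter groups of arbitrary rank

`C` is any class of groups with the closure properties `ClosedE C`, all of which are known for the
class of the Farrell–Jones groups, and such that the Coxeter groups of finite rank are in `C`, which is
also known for the Farrell-Jones groups.

`cs : CoxeterSystem M N` means that the subgroup `N` is a Coxeter group with the Coxeter matrix `M`
(of any rank) and the simple reflections `cs.simple i`.
-/

set_option autoImplicit false

namespace Pool.Agent.Results.MP_2a547c_gt.CoxeterKernels

open Pool.Agent.Y110.FJ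

/-- Let `C` be a class of groups with the closure properties `ClosedE C` which contains the Coxeter
groups of finite rank. Let `Γ` be a group with a normal subgroup `N` which is a Coxeter group with a
Coxeter matrix `M` of any rank, such that `Γ ⧸ N` is in `C` and each element of `Γ` acts on `N` as the
composition of the automorphism given by an automorphism `π` of `M` (a permutation of the simple
reflections which preserves the labels) and an inner automorphism of `N`. Then `Γ` is in `C`. -/
theorem result (C : ∀ (G : Type) [Group G], Prop) (hC : ClosedE C)
    (hcox : ∀ (B : Type) [Finite B] (M : CoxeterMatrix B), C M.Group)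
    (B : Type) (M : CoxeterMatrix B) (Γ : Type) [Group Γ] (N : Subgroup Γ) [N.Normal]
    (cs : CoxeterSystem M N)
    (hact : ∀ γ : Γ, ∃ (π : Equiv.Perm B) (a : N), (∀ i j, M (π i) (π j) = M i j) ∧
      ∀ i, γ * (cs.simple i : Γ) * γ⁻¹ = (a : Γ) * cs.simple (π i) * (a : Γ)⁻¹)
    (hQ : C (Γ ⧸ N)) : C Γ :=
  Pool.Agent.X201.SH.cox_kern hC hcox N cs hact hQ

end Pool.Agent.Results.MP_2a547c_gt.CoxeterKernels
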