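import Pool.Agent.X201.FJ.Lin

/-!
# Groups of linear transformations modulo the finitary ones

`C` is any class of groups with the closure properties `ClosedE C`, all of which are known for the
class of the groups that satisfy the Farrell–Jones conjecture for A-theory with coefficients
and finite wreath products.

`FGL D V` is the normal subgroup of the group `V ≃ₗ[D] V` of all automorphisms of the vector space
`V` over the division ring `D` which consists of the finitary automorphisms: the `g` for which
`g - 1` has finite rank. The dimension of `V` is arbitrary.
-/

set_option autoImplicit false

namespace Pool.Agent.Results.MP_2a547c_gt.FinitaryLinear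

open Pool.Agent.Y110.FJ Pool.Agent.X201.FJ

/-- Let `C` be a class of groups with the closure properties `ClosedE C`. Let `D` be a division ring
for which all groups `GL_n(D)` are in `C`, and let `V` be any vector space over `D`. Let `G` be any
group of automorphisms of `V`. If the image of `G` in the group of the automorphisms of `V` modulo
the finitary ones is in `C`, then `G` is in `C`. -/
theorem result (C : ∀ (G : Type) [Group G], Prop) (hC : ClosedE C) (D V : Type) [DivisionRing D]
    [AddCommGroup V] [Module D V] (hGL : ∀ n : ℕ, C ((Fin n → D) ≃ₗ[D] (Fin n → D)))
    (G : Subgroup (V ≃ₗ[D] V)) (hG : C (G.map (QuotientGroup.mk' (FGL D V)))) : C G :=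
  linear hC hGL G hG

end Pool.Agent.Results.MP_2a547c_gt.FinitaryLinear
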