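import Pool.Agent.X176.FJ.NEdge

/-!
# Amalgamated products over a subgroup which is normal in one of the factors

`C` is any class of groups with the closure properties `ClosedE C`, all of which are known for the
class of the groups that satisfy the Farrell–Jones conjecture for A-theory with coefficients and finite
wreath products.

Let `G` be the amalgamated product of its subgroups `A` and `B` over `K`, where `K` is normal in `A`
and `A/K` is in `C`. If conjugation by every element of `A` on `K` extends to an automorphism of `B`
which has finite order modulo inner automorphisms (for instance if `K` is central in `A`), then `G` is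
in `C` if and only if `B` is. No condition is imposed on the position of `K` in `B`. The central case
contains the adjunction of roots, centralizer extensions and extensions of abelian subgroups.

The proof: the preimage of an infinite cyclic subgroup of `A/K` in `G` has a homomorphism to `B × ℤ`
(or `B ⋊ ℤ`) which is injective on the stabilizers of the vertices of the Bass–Serre tree; it is the
component of a homomorphism from `G` to an unrestricted wreath product.
-/

set_option autoImplicit false

namespace Pool.Agent.Results.MP_2a547c_gt.NormalEdgeAmalgams

open Pool.Agent.Y110.FJ Pool.Agent.X176.FJ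

variable {G : Type} [Group G]

/-- the automorphism `β` of `B` agrees on `K` with the conjugation by `a` -/
def Extends (B K : Subgroup G) (a : G) (β : MulAut B) : Prop :=
  ∀ b : B, (b : G) ∈ K → (β b : G) = a * b * a⁻¹

/-- a positive power of `β` is an inner automorphism -/
def TorsionModInner {N : Type} [Group N] (β : MulAut N) : Prop :=
  ∃ (k : ℕ) (b : N), 0 < k ∧ β ^ k = MulAut.conj b

/-- the semidirect product of `N` and `ℤ` given by the automorphism `β` is in the class `C` -/
def TorusIn (C : ∀ (G : Type) [Group G], Prop) {N : Type} [Group N] (β : MulAut N) : Prop :=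
  C (SZ β)

/-- `K` is normal in `A`, and the quotient `A/K` is in the class `C` -/
def NormalWith (C : ∀ (G : Type) [Group G], Prop) (A K : Subgroup G) : Prop :=
  ∃ _ : (K.subgroupOf A).Normal, C (A ⧸ K.subgroupOf A)

/-- conjugation on `K` by each element of `A` extends to an automorphism `β` of `B` such that the
semidirect product of `B` and `ℤ` is in the class `C` -/
def ExtendsInC (C : ∀ (G : Type) [Group G], Prop) (A B K : Subgroup G) : Prop :=
  ∀ a ∈ A, ∃ β, Extends B K a β ∧ TorusIn C β

/-- conjugation on `K` by each element of `A` extends to an automorphism of `B` which has finite order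
modulo inner automorphisms -/
def ExtendsTorsion (A B K : Subgroup G) : Prop :=
  ∀ a ∈ A, ∃ β, Extends B K a β ∧ TorsionModInner β

/-- **Amalgamated products over a normal subgroup of one factor.** -/
theorem result (C : ∀ (G : Type) [Group G], Prop) (hC : ClosedE C) (G : Type) [Group G]
    (A B K : Subgroup G) (h : Amg A B K) (hK : NormalWith C A K) :
    (ExtendsInC C A B K → C G) ∧ (ExtendsTorsion A B K → (C G ↔ C B)) ∧
    ((∀ a ∈ A, ∀ k ∈ K, a * k = k * a) → (C G ↔ C B)) := by
  obtain ⟨hn, hQ⟩ := hK
  have h1 : ExtendsInC C A B K → C G := by
    intro hβ
    refine normal_am hC h hn hQ fun a ha => ?_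
    obtain ⟨β, h1, h2⟩ := hβ a ha
    exact ⟨β, fun k hk => h1 ⟨k, h.le_right hk⟩ hk, h2⟩
  have h2 : ExtendsTorsion A B K → (C G ↔ C B) := by
    intro hβ
    refine ⟨fun hG => hC.base.of_injective _ _ B.subtype B.subtype_injective hG, fun hB => ?_⟩
    apply h1
    intro a ha
    obtain ⟨β, h3, k, b, hk, hb⟩ := hβ a ha
    exact ⟨β, h3, c_torsion hC.base hB β k hk b hb⟩
  refine ⟨h1, h2, fun hc => h2 fun a ha => ⟨1, fun b hb => ?_, 1, 1, one_pos, ?_⟩⟩
  · rw [hc a ha b hb, mul_inv_cancel_right]
    rfl
  · rw [pow_one, map_one]

end Pool.Agent.Results.MP_2a547c_gt.NormalEdgeAmalgams
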