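import Pool.Agent.X176.FJ.WrC
import Pool.Agent.Y110.FJ.Stm

/-!
# Automorphism groups of wreath products

`C` is any class of groups with the closure properties `ClosedE C`, all of which are known for the
class of the groups that satisfy the Farrell–Jones conjecture with coefficients and finite wreath
products. Let `A` be a nontrivial group with trivial centre which is not a direct product of two
nontrivial groups, let `B` be an infinite finitely generated group, and let `RWr A B` be the restricted
wreath product. We show that its automorphism group is in `C` if and only if the automorphism group of
`A` and the holomorph of `B` are.

The proof shows that every automorphism preserves the base group and permutes its coordinate subgroups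
by an affine permutation of `B`, and that the family of the induced automorphisms of `A` takes only
finitely many values, because it is invariant under each translation up to finitely many places.
-/

set_option autoImplicit false

namespace Pool.Agent.Results.MP_2a547c_gt.WreathAutomorphisms

open Pool.Agent.Y110.FJ Pool.Agent.X176.FJ

theorem result (C : ∀ (G : Type) [Group G], Prop) (hC : ClosedE C) (A B : Type) [Group A] [Group B]
    [Nontrivial A] [Infinite B] (hA : Subgroup.center A = ⊥) (hI : DirIndec A) (hB : Group.FG B) :
    C (MulAut (RWr A B)) ↔ C (MulAut A) ∧ C (Holo B) :=
  WA.autW_iff hC hA hI hB

end Pool.Agent.Results.MP_2a547c_gt.WreathAutomorphisms
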